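import Pool.Agent.Q34.FF.DistM
import Pool.Agent.Q296.RS.Val
import Pool.Agent.Q213.RS.Sq

/-!
# The value of the exotic class at `m` times the distribution of Gauss sums

Lemma job FF-A for helper180.
-/

set_option autoImplicit false

namespace Pool.Agent.Q34.FF

open Finset Pool.Agent.H916R2 Pool.Agent.Q59.FS Pool.Agent.Q59.RL Pool.Agent.H180.RS
  Pool.Agent.H180.FF Pool.Agent.Q213.RS

lemma Xc_smul {G : Type*} [AddCommGroup G] (m p q : ℕ) (n : ℤ) (c : ZMod m → G) :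
    Xc m p q (fun a => n • c a) = n • Xc m p q c := by
  unfold Xc H180.RS.XX
  simp only [sum_zsmul, zsmul_sub, zsmul_add]

lemma Xc_cM {ℓ m : ℕ} [Fact ℓ.Prime] (p q : ℕ) (χ : MulChar (ZMod ℓ) ℂ)
    (ψ : AddChar (ZMod ℓ) ℂ) :
    Xc m p q (cM (m := m) χ ψ) = (m : ℤ) • Xc m p q (cD (m := m) χ ψ) :=
  Xc_smul m p q (m : ℤ) (cD (m := m) χ ψ)

lemma order_div {ℓ m p : ℕ} [Fact ℓ.Prime] (hm : m ≠ 0) (hp : p.Prime) (hpm : p ∣ m)
    {χ : MulChar (ZMod ℓ) ℂ} (hχ : orderOf χ = m) : orderOf (χ ^ (m / p)) = p := by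
  obtain ⟨d, rfl⟩ := hpm
  have hd : d ≠ 0 := by rintro rfl; exact hm (mul_zero p)
  rw [Nat.mul_div_cancel_left d hp.pos, orderOf_pow' χ hd, hχ, Nat.gcd_mul_left_left,
    Nat.mul_div_cancel _ (Nat.pos_of_ne_zero hd)]

/-- **VALM.** -/
theorem valM : PropValM := by
  intro ℓ m p q _ _ hm hp hq hpq hpm hqm χ ψ hψ hχ
  have : Fact p.Prime := ⟨hp⟩
  have : Fact q.Prime := ⟨hq⟩
  have hp2 : p ≠ 2 := by
    rintro rfl
    exact absurd (Odd.of_dvd_nat hm hpm) (by decide)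
  have hq2 : q ≠ 2 := by
    rintro rfl
    exact absurd (Odd.of_dvd_nat hm hqm) (by decide)
  rw [Xc_cM, Pool.Agent.Q296.RS.val ℓ m p q hm hp hq hpq hpm hqm χ ψ hψ hχ, toU_pow]
  exact ev_ne hψ hp2 hq2 hpq (order_div (NeZero.ne m) hp hpm hχ)
    (order_div (NeZero.ne m) hq hqm hχ)

/-- **SQM.** -/
theorem sqM : PropSqM := by
  intro ℓ p q hℓ hp hq hp2 hq2 hpq α β ψ hψ hα hβ
  have : Fact p.Prime := ⟨hp⟩
  have : Fact q.Prime := ⟨hq⟩
  have : NeZero (p * q) := ⟨mul_ne_zero hp.ne_zero hq.ne_zero⟩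
  have hqp0 : (q : ZMod p) ≠ 0 := by
    rw [Ne, ZMod.natCast_eq_zero_iff]
    exact fun h => hpq ((Nat.prime_dvd_prime_iff_eq hp hq).mp h)
  have hpq0 : (p : ZMod q) ≠ 0 := by
    rw [Ne, ZMod.natCast_eq_zero_iff]
    exact fun h => hpq ((Nat.prime_dvd_prime_iff_eq hq hp).mp h).symm
  have h2p := hp.two_le
  have h2q := hq.two_le
  set χ : MulChar (ZMod ℓ) ℂ := α ^ (q ^ (p - 2)) * β ^ (p ^ (q - 2)) with hχ
  have hχq : χ ^ q = α := by
    rw [hχ, mul_pow, ← pow_mul, ← pow_mul, mul_comm (p ^ (q - 2)) q, pow_mul β q, ← hβ,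
      pow_orderOf_eq_one, hβ, one_pow, mul_one]
    conv_rhs => rw [← pow_one α]
    refine pow_congr hα ?_
    rw [← pow_succ, show p - 2 + 1 = p - 1 by omega]
    push_cast
    exact ZMod.pow_card_sub_one_eq_one hqp0
  have hχp : χ ^ p = β := by
    rw [hχ, mul_pow, ← pow_mul, ← pow_mul, mul_comm (q ^ (p - 2)) p, pow_mul α p, ← hα,
      pow_orderOf_eq_one, hα, one_pow, one_mul]
    conv_rhs => rw [← pow_one β]
    refine pow_congr hβ ?_
    rw [← pow_succ, show q - 2 + 1 = q - 1 by omega]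
    push_cast
    exact ZMod.pow_card_sub_one_eq_one hpq0
  have hα1 : α ≠ 1 := by
    rintro rfl
    rw [orderOf_one] at hα
    omega
  have hβ1 : β ≠ 1 := by
    rintro rfl
    rw [orderOf_one] at hβ
    omega
  have hord : orderOf χ = p * q := by
    refine orderOf_eq_of_pow_and_pow_div_prime (Nat.mul_pos hp.pos hq.pos) ?_ ?_
    · rw [pow_mul, hχp, ← hβ, pow_orderOf_eq_one]
    · intro r hr hrd
      rcases (Nat.Prime.dvd_mul hr).mp hrd with h | h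
      · rw [(Nat.prime_dvd_prime_iff_eq hr hp).mp h, Nat.mul_div_cancel_left q hp.pos, hχq]
        exact hα1
      · rw [(Nat.prime_dvd_prime_iff_eq hr hq).mp h, Nat.mul_div_cancel p hq.pos, hχp]
        exact hβ1
  have hodd : Odd (p * q) := (hp.odd_of_ne_two hp2).mul (hq.odd_of_ne_two hq2)
  have hD : OddDist (cM (m := p * q) χ ψ) := distM ℓ (p * q) hodd χ ψ hψ hord
  have hV := valM ℓ (p * q) p q hodd hp hq hpq (dvd_mul_right p q) (dvd_mul_left q p) χ ψ hψ hord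
  rw [Nat.mul_div_cancel_left q hp.pos, Nat.mul_div_cancel p hq.pos, hχq, hχp] at hV
  have hT := two_XX hD (dvd_mul_right p q) (dvd_mul_left q p) hp2 hq2 (gn_spec p) (gn_spec q)
    (lg_spec hqp0) (lg_spec hpq0)
  change (2 : ℤ) • Xc (p * q) p q (cM (m := p * q) χ ψ) = 0 at hT
  have hne := ev_ne hψ hp2 hq2 hpq hα hβ
  have hne' := pow_ne_zero (p * q) hne
  have hsq : ev p q ψ α β ^ (p * q) * ev p q ψ α β ^ (p * q) = 1 := by
    rw [hV, two_zsmul, ← toU_mul hne' hne', ← toU_one] at hT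
    exact (toU_inj (mul_ne_zero hne' hne') one_ne_zero).mp hT
  refine ⟨by rw [mul_comm 2, pow_mul, pow_two, hsq], ?_⟩
  rw [ev_swap hψ hp2 hq2 hpq hα hβ, inv_pow]
  exact inv_eq_of_mul_eq_one_right hsq

end Pool.Agent.Q34.FF
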